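import Pool.Agent.W602.RG.Stm

/-! Project RG, part LC0: the order of a Wronskian at a place where the derivation is regular. -/

set_option autoImplicit false

open FF MvPolynomial Pool.Agent.W603.LV Pool.Agent.W603.PV Pool.Agent.W602.RG

namespace Pool.Agent.W91.RG

theorem iter_ge {L Ω E : Type} [Field L] [Field Ω] [Field E] [Algebra L E] [Algebra Ω E]
    (D : Derivation L E E) (P : Place Ω E) (h : Reg0 D P) (f : E) (n : ℕ) :
    Ge P (P.ord f) ((⇑D)^[n] f) := by
  induction n with
  | zero => exact Or.inr le_rfl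
  | succ n ih =>
    rw [Function.iterate_succ_apply']
    by_cases h0 : D ((⇑D)^[n] f) = 0
    · exact Or.inl h0
    · right
      have h1 : (⇑D)^[n] f ≠ 0 := fun h2 => h0 (by rw [h2, map_zero])
      exact (ih.resolve_left h1).trans (h _ h0)

theorem main : Pool.Agent.W602.RG.S_LC0 := by
  intro L Ω E _ _ _ _ _ _ D P hP r g _ hW
  have key : Ge P (∑ i, P.ord (g i)) (Wr D g) := by
    unfold Wr
    rw [Matrix.det_apply']
    apply Ge.sum
    intro σ _
    have h1 : Ge P (0 + ∑ i, P.ord (g i)) ((((Equiv.Perm.sign σ : ℤˣ) : ℤ) : E) *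
        ∏ i, (⇑D)^[((σ i : Fin r) : ℕ)] (g i)) :=
      Ge.mul (Ge.intCast _) (Ge.prod _ _ _ fun i _ => iter_ge D P hP (g i) _)
    rw [zero_add] at h1
    exact h1
  exact key.resolve_left hW

end Pool.Agent.W91.RG
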